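import Mathlib
import Pool.Agent.N903.Gerber

/-!
# Wyner–Ziv inequality in the form needed for the comparison of channels
-/

set_option autoImplicit false

namespace Pool.Agent.H93S.GV

open Real Finset
open Pool.Agent.N903.SS (gerber le_star star_le_half star_one_sub)


/-- the supporting line has slope at most one -/
theorem gerber_one {δ b : ℝ} (h0 : 0 < δ) (h1 : δ < 1 / 2) (hb0 : 0 ≤ b) (hb1 : b ≤ 1) :
    ∃ c : ℝ, 0 ≤ c ∧ c ≤ 1 ∧ ∀ t, 0 ≤ t → t ≤ 1 →
      binEntropy (Pool.Agent.N903.SS.star δ b) + c * (binEntropy t - binEntropy δ) ≤ binEntropy (Pool.Agent.N903.SS.star t b) := by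
  obtain ⟨c, hc, h⟩ := gerber h0 h1 hb0 hb1
  refine ⟨c, hc, ?_, h⟩
  have h2 := h (1 / 2) (by norm_num) (by norm_num)
  have e1  : Pool.Agent.N903.SS.star (1 / 2) b = 2⁻¹ := by unfold Pool.Agent.N903.SS.star; ring
  have e2 : (1 / 2 : ℝ) = 2⁻¹ := by norm_num
  rw [e1, binEntropy_two_inv, e2, binEntropy_two_inv] at h2
  have h3 : binEntropy δ < log 2 := by
    rw [binEntropy_lt_log_two]
    intro h
    rw [h] at h1
    norm_num at h1
  have mono : ∀ b : ℝ, 0 ≤ b → b ≤ 1 / 2 → binEntropy δ ≤ binEntropy (Pool.Agent.N903.SS.star δ b) := by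
    intro b hb0 hb1
    have h5 := le_star (a := δ) (b := b) h1.le hb0
    have h6 := star_le_half (a := δ) (b := b) h1.le hb1
    exact binEntropy_strictMonoOn.monotoneOn ⟨h0.le, by linarith⟩ ⟨by linarith, by linarith⟩ h5
  have h4 : binEntropy δ ≤ binEntropy (Pool.Agent.N903.SS.star δ b) := by
    rcases le_total b (1 / 2) with hb | hb
    · exact mono b hb0 hb
    · have := mono (1 - b) (by linarith) (by linarith)
      rwa [star_one_sub, binEntropy_one_sub] at this
  nlinarith

/-- the scaled form -/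
theorem two_out {δ A B : ℝ} (h0 : 0 < δ) (h1 : δ < 1 / 2) (hA : 0 ≤ A) (hB : 0 ≤ B) :
    ∃ c : ℝ, 0 ≤ c ∧ c ≤ A + B ∧ ∀ t, 0 ≤ t → t ≤ 1 →
      negMulLog (A * (1 - δ) + B * δ) + negMulLog (B * (1 - δ) + A * δ) +
        c * (binEntropy t - binEntropy δ) ≤
      negMulLog (A * (1 - t) + B * t) + negMulLog (B * (1 - t) + A * t) := by
  rcases eq_or_lt_of_le (add_nonneg hA hB) with h | h
  · have hA' : A = 0 := by linarith
    have hB' : B = 0 := by linarith
    refine ⟨0, le_rfl, by linarith, fun t _ _ => ?_⟩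
    rw [hA', hB']
    simp
  · set r := A + B with hr
    have hr0 : r ≠ 0 := h.ne'
    have hb0 : 0 ≤ B / r := by positivity
    have hb1 : B / r ≤ 1 := by rw [div_le_one h]; linarith
    obtain ⟨c, hc0, hc1, hc⟩ := gerber_one h0 h1 hb0 hb1
    have key : ∀ t : ℝ, negMulLog (A * (1 - t) + B * t) + negMulLog (B * (1 - t) + A * t) =
        negMulLog r + r * binEntropy (Pool.Agent.N903.SS.star t (B / r)) := by
      intro t
      have e1 : B * (1 - t) + A * t = r * Pool.Agent.N903.SS.star t (B / r) := by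
        unfold Pool.Agent.N903.SS.star
        field_simp
        rw [hr]
        ring
      have e2 : A * (1 - t) + B * t = r * (1 - Pool.Agent.N903.SS.star t (B / r)) := by
        have e3 : r * (1 - Pool.Agent.N903.SS.star t (B / r)) = r - r * Pool.Agent.N903.SS.star t (B / r) := by ring
        rw [e3, ← e1, hr]
        ring
      rw [e1, e2, negMulLog_mul, negMulLog_mul, binEntropy_eq_negMulLog_add_negMulLog_one_sub]
      ring
    refine ⟨r * c, by positivity, by nlinarith, fun t ht0 ht1 => ?_⟩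
    rw [key, key]
    have := mul_le_mul_of_nonneg_left (hc t ht0 ht1) h.le
    linarith

end Pool.Agent.H93S.GV
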