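import Mathlib
import Pool.Agent.H93S.GV.Gerb

/-!
# Mixtures of binary symmetric channels: comparison of the conditional entropies of words

`G ν p` is `H(X | Y) - H(X)` for the weight `ν` of `X` and the product of the binary symmetric channels
with crossover probabilities `p i`.
-/

set_option autoImplicit false

namespace Pool.Agent.H93S.GV

open Real Finset

/-- transition probability of a binary symmetric channel with crossover probability `t` -/
noncomputable def w (t : ℝ) (a b : Bool) : ℝ := if b = a then 1 - t else t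

/-- transition probabilities of a product of binary symmetric channels -/
noncomputable def Ker {n : ℕ} (p : Fin n → ℝ) (x y : Fin n → Bool) : ℝ := ∏ i, w (p i) (x i) (y i)

lemma w_nonneg {t : ℝ} (h0 : 0 ≤ t) (h1 : t ≤ 1) (a b : Bool) : 0 ≤ w t a b := by
  unfold w; split_ifs <;> linarith

lemma sum_w (t : ℝ) (a : Bool) : ∑ b, w t a b = 1 := by
  cases a <;> simp [w]

lemma sum_cons' {α : Type} [Fintype α] {n : ℕ} (F : (Fin (n + 1) → α) → ℝ) :
    ∑ z, F z = ∑ a, ∑ z' : Fin n → α, F (Fin.cons a z') := by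
  rw [← Fintype.sum_prod_type' (f := fun a (z' : Fin n → α) => F (Fin.cons a z'))]
  exact (Equiv.sum_comp (Fin.consEquiv fun _ => α) F).symm

lemma ker_cons {n : ℕ} (t : ℝ) (p : Fin n → ℝ) (a b : Bool) (x y : Fin n → Bool) :
    Ker (Fin.cons t p : Fin (n + 1) → ℝ) (Fin.cons a x : Fin (n + 1) → Bool)
      (Fin.cons b y : Fin (n + 1) → Bool) = w t a b * Ker p x y := by
  unfold Ker
  rw [Fin.prod_univ_succ]
  simp

lemma ker_nonneg {n : ℕ} {p : Fin n → ℝ} (hp : ∀ i, 0 ≤ p i ∧ p i ≤ 1) (x y : Fin n → Bool) :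
    0 ≤ Ker p x y := prod_nonneg fun i _ => w_nonneg (hp i).1 (hp i).2 _ _

lemma sum_ker {n : ℕ} (p : Fin n → ℝ) (x : Fin n → Bool) : ∑ y, Ker p x y = 1 := by
  induction n with
  | zero => simp [Ker]
  | succ n ih =>
    rw [sum_cons']
    have e : ∀ (b : Bool) (y : Fin n → Bool), Ker p x (Fin.cons b y) =
        w (p 0) (x 0) b * Ker (Fin.tail p) (Fin.tail x) y := by
      intro b y
      have := ker_cons (p 0) (Fin.tail p) (x 0) b (Fin.tail x) y
      rwa [Fin.cons_self_tail, Fin.cons_self_tail] at this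
    simp_rw [e, ← mul_sum, ih, mul_one]
    exact sum_w _ _

/-- `H(X | Y) - H(X)` -/
noncomputable def G {n : ℕ} (ν : (Fin n → Bool) → ℝ) (p : Fin n → ℝ) : ℝ :=
  (∑ x, ν x) * ∑ i, binEntropy (p i) - ∑ y, negMulLog (∑ x, ν x * Ker p x y)

/-- the weight of the remaining letters, jointly with the first output `b` -/
noncomputable def rest {n : ℕ} (ν : (Fin (n + 1) → Bool) → ℝ) (t : ℝ) (b : Bool) :
    (Fin n → Bool) → ℝ := fun x => ∑ a, ν (Fin.cons a x) * w t a b

lemma rest_nonneg {n : ℕ} {ν : (Fin (n + 1) → Bool) → ℝ} (hν : ∀ x, 0 ≤ ν x) {t : ℝ}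
    (h0 : 0 ≤ t) (h1 : t ≤ 1) (b : Bool) (x : Fin n → Bool) : 0 ≤ rest ν t b x :=
  sum_nonneg fun a _ => mul_nonneg (hν _) (w_nonneg h0 h1 a b)

lemma sum_rest {n : ℕ} (ν : (Fin (n + 1) → Bool) → ℝ) (t : ℝ) :
    ∑ b, ∑ x, rest ν t b x = ∑ x, ν x := by
  rw [sum_cons' ν]
  unfold rest
  have e : ∀ x : Fin n → Bool, ∑ b, ∑ a, ν (Fin.cons a x) * w t a b = ∑ a, ν (Fin.cons a x) := by
    intro x
    rw [sum_comm]
    refine sum_congr rfl fun a _ => ?_
    rw [← mul_sum, sum_w, mul_one]
  rw [sum_comm, sum_comm (f := fun (a : Bool) (x : Fin n → Bool) => ν (Fin.cons a x))]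
  exact sum_congr rfl fun x _ => e x

lemma out_cons {n : ℕ} (ν : (Fin (n + 1) → Bool) → ℝ) (t : ℝ) (p : Fin n → ℝ) (b : Bool)
    (y : Fin n → Bool) :
    ∑ x, ν x * Ker (Fin.cons t p : Fin (n + 1) → ℝ) x (Fin.cons b y) =
      ∑ x, rest ν t b x * Ker p x y := by
  rw [sum_cons', sum_comm]
  refine sum_congr rfl fun x _ => ?_
  unfold rest
  rw [sum_mul]
  refine sum_congr rfl fun a _ => ?_
  rw [ker_cons]
  ring

lemma G_cons {n : ℕ} (ν : (Fin (n + 1) → Bool) → ℝ) (t : ℝ) (p : Fin n → ℝ) :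
    G ν (Fin.cons t p : Fin (n + 1) → ℝ) =
      (∑ x, ν x) * binEntropy t + ∑ b, G (rest ν t b) p := by
  unfold G
  rw [sum_cons' (fun y => negMulLog (∑ x, ν x * Ker (Fin.cons t p : Fin (n + 1) → ℝ) x y))]
  simp_rw [out_cons]
  rw [Fin.sum_univ_succ, sum_sub_distrib, ← sum_mul, sum_rest]
  simp only [Fin.cons_zero, Fin.cons_succ]
  ring

/-- changing the channel of the first letter -/
lemma first {δ : ℝ} (h0 : 0 < δ) (h1 : δ < 1 / 2) {n : ℕ} {ν : (Fin (n + 1) → Bool) → ℝ}
    (hν : ∀ x, 0 ≤ ν x) {p : Fin n → ℝ} (hp : ∀ i, 0 ≤ p i ∧ p i ≤ 1) :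
    ∃ κ : ℝ, 0 ≤ κ ∧ ∀ t, 0 ≤ t → t ≤ 1 →
      G ν (Fin.cons t p : Fin (n + 1) → ℝ) ≤ G ν (Fin.cons δ p : Fin (n + 1) → ℝ) +
        κ * (binEntropy t - binEntropy δ) := by
  let B : Bool → (Fin n → Bool) → ℝ := fun a y => ∑ x, ν (Fin.cons a x) * Ker p x y
  have hB : ∀ a y, 0 ≤ B a y := fun a y =>
    sum_nonneg fun x _ => mul_nonneg (hν _) (ker_nonneg hp x y)
  have hex : ∀ y, ∃ c : ℝ, 0 ≤ c ∧ c ≤ B false y + B true y ∧ ∀ t, 0 ≤ t → t ≤ 1 →
      negMulLog (B false y * (1 - δ) + B true y * δ) +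
        negMulLog (B true y * (1 - δ) + B false y * δ) + c * (binEntropy t - binEntropy δ) ≤
      negMulLog (B false y * (1 - t) + B true y * t) +
        negMulLog (B true y * (1 - t) + B false y * t) := fun y =>
    two_out h0 h1 (hB _ _) (hB _ _)
  choose c hc0 hc1 hc using hex
  have hsumB : ∑ y, (B false y + B true y) = ∑ x, ν x := by
    rw [sum_cons' ν, Fintype.sum_bool, sum_add_distrib, add_comm]
    have e : ∀ a, ∑ y, B a y = ∑ x, ν (Fin.cons a x) := by
      intro a
      show ∑ y, ∑ x, ν (Fin.cons a x) * Ker p x y = _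
      rw [sum_comm]
      refine sum_congr rfl fun x _ => ?_
      rw [← mul_sum, sum_ker, mul_one]
    rw [e, e]
  have hcs : ∑ y, c y ≤ ∑ x, ν x := by
    rw [← hsumB]
    exact sum_le_sum fun y _ => hc1 y
  have hout : ∀ t : ℝ, ∑ y : Fin (n + 1) → Bool,
      negMulLog (∑ x, ν x * Ker (Fin.cons t p : Fin (n + 1) → ℝ) x y) =
      ∑ y, (negMulLog (B false y * (1 - t) + B true y * t) +
        negMulLog (B true y * (1 - t) + B false y * t)) := by
    intro t
    rw [sum_cons', sum_comm]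
    refine sum_congr rfl fun y _ => ?_
    rw [Fintype.sum_bool, out_cons, out_cons, add_comm]
    have e : ∀ b, ∑ x, rest ν t b x * Ker p x y = B false y * w t false b + B true y * w t true b := by
      intro b
      show _ = (∑ x, ν (Fin.cons false x) * Ker p x y) * w t false b +
        (∑ x, ν (Fin.cons true x) * Ker p x y) * w t true b
      rw [sum_mul, sum_mul, ← sum_add_distrib]
      refine sum_congr rfl fun x _ => ?_
      unfold rest
      rw [Fintype.sum_bool]
      ring
    rw [e, e]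
    simp only [w, if_true, Bool.false_eq_true, if_false, Bool.true_eq_false]
    congr 2
    ring
  refine ⟨∑ x, ν x - ∑ y, c y, by linarith, fun t ht0 ht1 => ?_⟩
  unfold G
  rw [hout, hout, Fin.sum_univ_succ, Fin.sum_univ_succ]
  simp only [Fin.cons_zero, Fin.cons_succ]
  have h3 : ∑ y, (negMulLog (B false y * (1 - δ) + B true y * δ) +
        negMulLog (B true y * (1 - δ) + B false y * δ) + c y * (binEntropy t - binEntropy δ)) ≤
      ∑ y, (negMulLog (B false y * (1 - t) + B true y * t) +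
        negMulLog (B true y * (1 - t) + B false y * t)) :=
    sum_le_sum fun y _ => hc y t ht0 ht1
  rw [sum_add_distrib (g := fun y => c y * (binEntropy t - binEntropy δ)), ← sum_mul] at h3
  linarith

/-- **comparison of channels**: a mixture of binary symmetric channels whose average entropy is at
most the entropy of the binary symmetric channel with crossover probability `δ` -/
theorem avg {δ : ℝ} (h0 : 0 < δ) (h1 : δ < 1 / 2) {J : Type} [Fintype J] {lam q : J → ℝ}
    (hl : ∀ j, 0 ≤ lam j) (hl1 : ∑ j, lam j = 1) (hq : ∀ j, 0 ≤ q j ∧ q j ≤ 1)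
    (hV : ∑ j, lam j * binEntropy (q j) ≤ binEntropy δ) {n : ℕ} :
    ∀ {ν : (Fin n → Bool) → ℝ}, (∀ x, 0 ≤ ν x) →
    ∑ j : Fin n → J, (∏ i, lam (j i)) * G ν (fun i => q (j i)) ≤ G ν (fun _ => δ) := by
  induction n with
  | zero =>
    intro ν _
    simp only [univ_eq_empty, prod_empty, one_mul, Fintype.sum_unique]
    refine le_of_eq ?_
    congr 1
    exact Subsingleton.elim _ _
  | succ n ih =>
    intro ν hν
    obtain ⟨κ, hκ, h⟩ := first h0 h1 hν (p := fun _ : Fin n => δ)
      (fun _ => ⟨h0.le, by linarith⟩)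
    rw [sum_cons']
    have e1 : ∀ (t : J) (j : Fin n → J), (∏ i, lam ((Fin.cons t j : Fin (n + 1) → J) i)) *
        G ν (fun i => q ((Fin.cons t j : Fin (n + 1) → J) i)) =
        lam t * ((∏ i, lam (j i)) * ((∑ x, ν x) * binEntropy (q t)) +
          ∑ b, (∏ i, lam (j i)) * G (rest ν (q t) b) (fun i => q (j i))) := by
      intro t j
      have e2 : (fun i => q ((Fin.cons t j : Fin (n + 1) → J) i)) =
          (Fin.cons (q t) (fun i => q (j i)) : Fin (n + 1) → ℝ) := by
        funext i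
        refine Fin.cases ?_ (fun i => ?_) i <;> simp
      rw [e2, G_cons, Fin.prod_univ_succ, ← mul_sum]
      simp only [Fin.cons_zero, Fin.cons_succ]
      ring
    simp_rw [e1]
    have hprod : ∀ n : ℕ, ∑ j : Fin n → J, ∏ i, lam (j i) = 1 := by
      intro n
      have := Finset.prod_univ_sum (fun _ : Fin n => (univ : Finset (J))) (fun _ j => lam j)
      simp only [hl1, prod_const_one, Fintype.piFinset_univ] at this
      exact this.symm
    have e3 : ∀ t : J, ∑ j : Fin n → J, lam t * ((∏ i, lam (j i)) * ((∑ x, ν x) *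
        binEntropy (q t)) + ∑ b, (∏ i, lam (j i)) * G (rest ν (q t) b) (fun i => q (j i))) ≤
        lam t * (G ν (Fin.cons δ (fun _ => δ) : Fin (n + 1) → ℝ) +
          κ * (binEntropy (q t) - binEntropy δ)) := by
      intro t
      rw [← mul_sum, sum_add_distrib, ← sum_mul, hprod, one_mul, sum_comm]
      refine mul_le_mul_of_nonneg_left ?_ (hl t)
      refine le_trans ?_ (h (q t) (hq t).1 (hq t).2)
      rw [G_cons]
      have : ∑ b, ∑ j : Fin n → J, (∏ i, lam (j i)) * G (rest ν (q t) b) (fun i => q (j i)) ≤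
          ∑ b, G (rest ν (q t) b) (fun _ => δ) :=
        sum_le_sum fun b _ => ih (rest_nonneg hν (hq t).1 (hq t).2 b)
      linarith
    refine (sum_le_sum fun t _ => e3 t).trans ?_
    have e4 : (Fin.cons δ (fun _ => δ) : Fin (n + 1) → ℝ) = fun _ => δ := by
      funext i
      refine Fin.cases ?_ (fun i => ?_) i <;> simp
    rw [e4]
    have e5 : ∑ t, lam t * (G ν (fun _ : Fin (n + 1) => δ) + κ * (binEntropy (q t) - binEntropy δ)) =
        G ν (fun _ => δ) + κ * (∑ t, lam t * binEntropy (q t) - binEntropy δ) := by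
      have : ∀ t, lam t * (G ν (fun _ : Fin (n + 1) => δ) + κ * (binEntropy (q t) - binEntropy δ)) =
          lam t * G ν (fun _ : Fin (n + 1) => δ) + κ * (lam t * binEntropy (q t)) -
            lam t * (κ * binEntropy δ) := fun t => by ring
      simp_rw [this]
      rw [sum_sub_distrib, sum_add_distrib, ← sum_mul, ← sum_mul, ← mul_sum, hl1]
      ring
    rw [e5]
    nlinarith

end Pool.Agent.H93S.GV
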