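import Mathlib
import Pool.Agent.H93S.GV.Out

/-!
# Conditional entropy and error probabilities
-/

set_option autoImplicit false

namespace Pool.Agent.H93S.GV

open Real Finset

/-- the conditional entropy `H(X | Y)` (in nats) -/
noncomputable def Hc {n : ℕ} (ν : (Fin n → Bool) → ℝ) (p : Fin n → ℝ) : ℝ :=
  ∑ y, ∑ x, ν x * Ker p x y * log ((∑ x', ν x' * Ker p x' y) / (ν x * Ker p x y))

lemma sum_negMulLog_ker {n : ℕ} (c : ℝ) (p : Fin n → ℝ) (x : Fin n → Bool) :
    ∑ y, negMulLog (c * Ker p x y) = negMulLog c + c * ∑ i, binEntropy (p i) := by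
  induction n generalizing c with
  | zero => simp [Ker]
  | succ n ih =>
    rw [sum_cons']
    have e : ∀ (b : Bool) (y : Fin n → Bool), Ker p x (Fin.cons b y) =
        w (p 0) (x 0) b * Ker (Fin.tail p) (Fin.tail x) y := by
      intro b y
      have := ker_cons (p 0) (Fin.tail p) (x 0) b (Fin.tail x) y
      rwa [Fin.cons_self_tail, Fin.cons_self_tail] at this
    simp_rw [e, ← mul_assoc, ih]
    rw [Fintype.sum_bool, Fin.sum_univ_succ]
    have e2 : ∀ i, Fin.tail p i = p i.succ := fun i => rfl
    simp_rw [e2, negMulLog_mul]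
    have e3 : w (p 0) (x 0) true + w (p 0) (x 0) false = 1 := by
      have := sum_w (p 0) (x 0)
      rwa [Fintype.sum_bool] at this
    have e4 : negMulLog (w (p 0) (x 0) true) + negMulLog (w (p 0) (x 0) false) =
        binEntropy (p 0) := by
      rw [binEntropy_eq_negMulLog_add_negMulLog_one_sub]
      cases x 0 <;> simp [w]; ring
    have e5 : w (p 0) (x 0) false = 1 - w (p 0) (x 0) true := by linarith
    have e6 : negMulLog (w (p 0) (x 0) false) = binEntropy (p 0) - negMulLog (w (p 0) (x 0) true) := by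
      linarith
    rw [e6, e5]
    ring

/-- the conditional entropy in terms of `G` -/
lemma Hc_eq {n : ℕ} {ν : (Fin n → Bool) → ℝ} (hν : ∀ x, 0 ≤ ν x) {p : Fin n → ℝ}
    (hp : ∀ i, 0 ≤ p i ∧ p i ≤ 1) : Hc ν p = ∑ x, negMulLog (ν x) + G ν p := by
  have hP : ∀ x y, 0 ≤ ν x * Ker p x y := fun x y => mul_nonneg (hν x) (ker_nonneg hp x y)
  have e1 : ∀ y, ∑ x, ν x * Ker p x y * log ((∑ x', ν x' * Ker p x' y) / (ν x * Ker p x y)) =
      ∑ x, negMulLog (ν x * Ker p x y) - negMulLog (∑ x, ν x * Ker p x y) := by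
    intro y
    have e2 : ∀ x, ν x * Ker p x y * log ((∑ x', ν x' * Ker p x' y) / (ν x * Ker p x y)) =
        ν x * Ker p x y * log (∑ x', ν x' * Ker p x' y) + negMulLog (ν x * Ker p x y) := by
      intro x
      rcases eq_or_lt_of_le (hP x y) with h | h
      · rw [← h]; simp
      · have hQ : 0 < ∑ x', ν x' * Ker p x' y :=
          lt_of_lt_of_le h (single_le_sum (f := fun x' => ν x' * Ker p x' y)
            (fun x' _ => hP x' y) (mem_univ x))
        rw [log_div hQ.ne' h.ne', negMulLog]
        ring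
    simp_rw [e2]
    rw [sum_add_distrib, ← sum_mul]
    have e3 : negMulLog (∑ x, ν x * Ker p x y) =
        -((∑ x, ν x * Ker p x y) * log (∑ x, ν x * Ker p x y)) := by
      rw [negMulLog]; ring
    rw [e3]
    ring
  unfold Hc G
  simp_rw [e1]
  rw [sum_sub_distrib, sum_comm]
  simp_rw [sum_negMulLog_ker]
  rw [sum_add_distrib, ← sum_mul]
  ring

lemma term_nonneg {P Q : ℝ} (hP : 0 ≤ P) (hPQ : P ≤ Q) : 0 ≤ P * log (Q / P) := by
  rcases eq_or_lt_of_le hP with h | h
  · rw [← h]; simp
  · exact mul_nonneg hP (log_nonneg (by rwa [one_le_div h]))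

/-- the error of the maximum a posteriori decision -/
lemma map_le {α : Type} [Fintype α] (P : α → ℝ) (hP : ∀ x, 0 ≤ P x) {x₀ : α}
    (h₀ : ∀ x, P x ≤ P x₀) : ∑ x, P x - P x₀ ≤ ∑ x, P x * log ((∑ x', P x') / P x) := by
  set Q := ∑ x, P x with hQ
  have hPQ : ∀ x, P x ≤ Q := fun x => single_le_sum (fun x' _ => hP x') (mem_univ x)
  rcases eq_or_lt_of_le (hP x₀) with h | h
  · have hz : ∀ x, P x = 0 := fun x => le_antisymm ((h₀ x).trans h.symm.le) (hP x)
    have hQ0 : Q = 0 := by rw [hQ]; exact sum_eq_zero fun x _ => hz x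
    rw [hQ0, ← h]
    simp [hz]
  · have hQ0 : 0 < Q := lt_of_lt_of_le h (hPQ x₀)
    have h1 : ∀ x, P x * log (Q / P x₀) ≤ P x * log (Q / P x) := by
      intro x
      rcases eq_or_lt_of_le (hP x) with hx | hx
      · rw [← hx]; simp
      · refine mul_le_mul_of_nonneg_left (log_le_log (by positivity) ?_) (hP x)
        exact div_le_div_of_nonneg_left hQ0.le hx (h₀ x)
    refine le_trans ?_ (sum_le_sum fun x _ => h1 x)
    rw [← sum_mul, ← hQ]
    have h2 := Real.one_sub_inv_le_log_of_pos (x := Q / P x₀) (by positivity)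
    rw [inv_div] at h2
    have h3 := mul_le_mul_of_nonneg_left h2 hQ0.le
    have h4 : Q * (1 - P x₀ / Q) = Q - P x₀ := by field_simp
    linarith

/-- Fano's inequality for one output -/
lemma fano_one {α : Type} [Fintype α] [DecidableEq α] (P : α → ℝ) (hP : ∀ x, 0 ≤ P x) (x₀ : α)
    (S : Finset α) (hS : ∀ x, x ∉ S → P x = 0) {N : ℝ} (hN : (S.card : ℝ) ≤ N) (hN1 : 1 ≤ N) :
    ∑ x, P x * log ((∑ x', P x') / P x) ≤
      (∑ x, P x - P x₀) + 2 * √((∑ x, P x) * (∑ x, P x - P x₀)) + (∑ x, P x - P x₀) * log N := by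
  set Q := ∑ x, P x with hQ
  have hPQ : ∀ x, P x ≤ Q := fun x => single_le_sum (fun x' _ => hP x') (mem_univ x)
  have hQ0 : 0 ≤ Q := sum_nonneg fun x _ => hP x
  set E := Q - P x₀ with hE
  have hE0 : 0 ≤ E := by linarith [hPQ x₀]
  have hN0 : 0 < N := by linarith
  have hEsum : ∑ x ∈ univ.erase x₀, P x = E := by
    rw [hE, hQ, ← add_sum_erase _ _ (mem_univ x₀)]
    ring
  rw [← add_sum_erase _ _ (mem_univ x₀)]
  have h1 : P x₀ * log (Q / P x₀) ≤ E := by
    rcases eq_or_lt_of_le (hP x₀) with h | h
    · rw [← h]; simpa using hE0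
    · have h2 := Real.log_le_sub_one_of_pos (x := Q / P x₀)
        (div_pos (lt_of_lt_of_le h (hPQ x₀)) h)
      have h3 := mul_le_mul_of_nonneg_left h2 (hP x₀)
      have h4 : P x₀ * (Q / P x₀ - 1) = E := by
        rw [hE]; field_simp
      linarith
  rcases eq_or_lt_of_le hE0 with hE' | hE'
  · have hz : ∀ x ∈ univ.erase x₀, P x * log (Q / P x) = 0 := by
      intro x hx
      have h2 : P x ≤ ∑ x ∈ univ.erase x₀, P x := single_le_sum (fun x' _ => hP x') hx
      rw [hEsum, ← hE'] at h2
      rw [le_antisymm h2 (hP x)]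
      simp
    rw [sum_eq_zero hz, ← hE']
    rw [← hE'] at h1
    simpa using h1
  · have hQpos : 0 < Q := by linarith [hP x₀]
    have hrest : ∑ x ∈ univ.erase x₀, P x * log (Q / P x) ≤ E * log (Q * N / E) := by
      have h2 : ∀ x ∈ univ.erase x₀, P x * log (Q / P x) ≤
          P x * log (Q * N / E) + (if x ∈ S then E / N else 0) - P x := by
        intro x _
        rcases eq_or_lt_of_le (hP x) with h | h
        · rw [← h]
          split_ifs <;> simp
          positivity
        · have hxS : x ∈ S := by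
            by_contra hx
            rw [hS x hx] at h
            exact lt_irrefl _ h
          rw [if_pos hxS]
          have h3 := Real.log_le_sub_one_of_pos (x := E / (N * P x)) (by positivity)
          have h4 : log (Q / P x) = log (Q * N / E) + log (E / (N * P x)) := by
            rw [← log_mul (by positivity) (by positivity)]
            congr 1
            field_simp
          rw [h4]
          have h5 := mul_le_mul_of_nonneg_left h3 h.le
          have h6 : P x * (E / (N * P x) - 1) = E / N - P x := by field_simp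
          linarith
      refine (sum_le_sum h2).trans ?_
      rw [sum_sub_distrib, sum_add_distrib, ← sum_mul, hEsum]
      have h7 : ∑ x ∈ univ.erase x₀, (if x ∈ S then E / N else 0) ≤ E := by
        have h8 : ∑ x ∈ univ.erase x₀, (if x ∈ S then E / N else 0) ≤
            ∑ x, (if x ∈ S then E / N else 0) :=
          sum_le_sum_of_subset_of_nonneg (erase_subset _ _) fun x _ _ => by
            split_ifs <;> positivity
        refine h8.trans ?_
        rw [sum_ite_mem, univ_inter, sum_const, nsmul_eq_mul]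
        calc (S.card : ℝ) * (E / N) ≤ N * (E / N) :=
              mul_le_mul_of_nonneg_right hN (by positivity)
          _ = E := by field_simp
      linarith
    have hlog : E * log (Q * N / E) ≤ 2 * √(Q * E) + E * log N := by
      have h2 : log (Q * N / E) = log N + log (Q / E) := by
        rw [← log_mul (by positivity) (by positivity)]
        congr 1
        field_simp
      rw [h2, mul_add]
      have h3 : log (Q / E) ≤ 2 * √(Q / E) := by
        have h4 : log (Q / E) = 2 * log (√(Q / E)) := by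
          rw [log_sqrt (by positivity)]
          ring
        rw [h4]
        have h5 := Real.log_le_sub_one_of_pos (x := √(Q / E)) (by positivity)
        linarith
      have h6 : E * (2 * √(Q / E)) = 2 * √(Q * E) := by
        have h7 : E * √(Q / E) = √(Q * E) := by
          have h9 : Q * E = E ^ 2 * (Q / E) := by field_simp
          rw [h9, Real.sqrt_mul (sq_nonneg E), Real.sqrt_sq hE0]
        rw [← h7]
        ring
      have h8 := mul_le_mul_of_nonneg_left h3 hE0
      linarith
    linarith

/-- the uniform distribution on `C` -/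
noncomputable def unif {n : ℕ} (C : Finset (Fin n → Bool)) (x : Fin n → Bool) : ℝ :=
  if x ∈ C then 1 / (C.card : ℝ) else 0

lemma unif_nonneg {n : ℕ} (C : Finset (Fin n → Bool)) (x : Fin n → Bool) : 0 ≤ unif C x := by
  unfold unif; split_ifs <;> positivity

lemma sum_unif {n : ℕ} {C : Finset (Fin n → Bool)} (hC : C.Nonempty) : ∑ x, unif C x = 1 := by
  unfold unif
  rw [sum_ite_mem, univ_inter, sum_const, nsmul_eq_mul]
  have : (0 : ℝ) < C.card := by exact_mod_cast hC.card_pos
  field_simp

/-- the error probability of the decoder `D` over the product of binary symmetric channels -/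
noncomputable def err {n : ℕ} (p : Fin n → ℝ) (C : Finset (Fin n → Bool))
    (D : (Fin n → Bool) → (Fin n → Bool)) : ℝ :=
  (∑ x ∈ C, ∑ y ∈ univ.filter (fun y => D y ≠ x), Ker p x y) / C.card

lemma err_eq {n : ℕ} (p : Fin n → ℝ) (C : Finset (Fin n → Bool))
    (D : (Fin n → Bool) → (Fin n → Bool)) :
    err p C D = ∑ y, (∑ x, unif C x * Ker p x y - unif C (D y) * Ker p (D y) y) := by
  have e1 : err p C D = ∑ x, ∑ y, (if D y ≠ x then unif C x * Ker p x y else 0) := by
    unfold err
    rw [sum_div, ← sum_subset (subset_univ C)]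
    · refine sum_congr rfl fun x hx => ?_
      rw [sum_div, sum_filter]
      refine sum_congr rfl fun y _ => ?_
      split_ifs
      · unfold unif
        rw [if_pos hx]
        ring
      · rfl
    · intro x _ hx
      refine sum_eq_zero fun y _ => ?_
      unfold unif
      rw [if_neg hx]
      simp
  rw [e1, sum_comm]
  refine sum_congr rfl fun y _ => ?_
  have e2 : ∀ x, (if D y ≠ x then unif C x * Ker p x y else 0) =
      unif C x * Ker p x y - (if D y = x then unif C x * Ker p x y else 0) := by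
    intro x
    by_cases h : D y = x <;> simp [h]
  simp_rw [e2]
  rw [sum_sub_distrib, sum_ite_eq]
  simp

/-- the maximum a posteriori decoder -/
theorem exists_dec {n : ℕ} (C : Finset (Fin n → Bool)) {p : Fin n → ℝ}
    (hp : ∀ i, 0 ≤ p i ∧ p i ≤ 1) : ∃ D : (Fin n → Bool) → (Fin n → Bool),
    err p C D ≤ Hc (unif C) p := by
  have h : ∀ y : Fin n → Bool, ∃ x₀ : Fin n → Bool, ∀ x,
      unif C x * Ker p x y ≤ unif C x₀ * Ker p x₀ y := by
    intro y
    obtain ⟨x₀, -, h⟩ := exists_max_image univ (fun x => unif C x * Ker p x y) univ_nonempty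
    exact ⟨x₀, fun x => h x (mem_univ x)⟩
  choose D hD using h
  refine ⟨D, ?_⟩
  rw [err_eq]
  unfold Hc
  refine sum_le_sum fun y _ => ?_
  exact map_le (fun x => unif C x * Ker p x y)
    (fun x => mul_nonneg (unif_nonneg C x) (ker_nonneg hp x y)) (hD y)

/-- **Fano's inequality** -/
theorem fano {n : ℕ} {C : Finset (Fin n → Bool)} (hC : C.Nonempty) {p : Fin n → ℝ}
    (hp : ∀ i, 0 ≤ p i ∧ p i ≤ 1) (D : (Fin n → Bool) → (Fin n → Bool)) {ε : ℝ}
    (hε : err p C D ≤ ε) :
    Hc (unif C) p ≤ ε + 2 * √ε + ε * (n * log 2) := by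
  have hP : ∀ x y, 0 ≤ unif C x * Ker p x y := fun x y =>
    mul_nonneg (unif_nonneg C x) (ker_nonneg hp x y)
  have hN1 : (1 : ℝ) ≤ C.card := by exact_mod_cast hC.card_pos
  have hE : ∀ y, 0 ≤ ∑ x, unif C x * Ker p x y - unif C (D y) * Ker p (D y) y := fun y =>
    sub_nonneg.2 (single_le_sum (f := fun x => unif C x * Ker p x y) (fun x _ => hP x y)
      (mem_univ (D y)))
  have h1 : ∀ y, ∑ x, unif C x * Ker p x y * log ((∑ x', unif C x' * Ker p x' y) /
      (unif C x * Ker p x y)) ≤ _ := fun y =>
    fano_one (fun x => unif C x * Ker p x y) (fun x => hP x y) (D y) C (fun x hx => by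
      unfold unif
      rw [if_neg hx, zero_mul]) le_rfl hN1
  unfold Hc
  refine (sum_le_sum fun y _ => h1 y).trans ?_
  rw [sum_add_distrib, sum_add_distrib, ← mul_sum, ← sum_mul, ← err_eq]
  have h0 : 0 ≤ err p C D := by rw [err_eq]; exact sum_nonneg fun y _ => hE y
  have h2 : ∑ y, √((∑ x, unif C x * Ker p x y) *
      (∑ x, unif C x * Ker p x y - unif C (D y) * Ker p (D y) y)) ≤ √ε := by
    have h3 : ∀ y, √((∑ x, unif C x * Ker p x y) *
        (∑ x, unif C x * Ker p x y - unif C (D y) * Ker p (D y) y)) =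
        √(∑ x, unif C x * Ker p x y) *
          √(∑ x, unif C x * Ker p x y - unif C (D y) * Ker p (D y) y) := fun y =>
      Real.sqrt_mul (sum_nonneg fun x _ => hP x y) _
    simp_rw [h3]
    refine (Real.sum_sqrt_mul_sqrt_le _ (fun y => sum_nonneg fun x _ => hP x y) hE).trans ?_
    rw [← err_eq, sum_comm]
    have h4 : ∑ x, ∑ y, unif C x * Ker p x y = 1 := by
      simp_rw [← mul_sum, sum_ker, mul_one]
      exact sum_unif hC
    rw [h4, Real.sqrt_one, one_mul]
    exact Real.sqrt_le_sqrt hε
  have h5 : log (C.card : ℝ) ≤ n * log 2 := by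
    have h6 : (C.card : ℝ) ≤ 2 ^ n := by
      have h7 : C.card ≤ 2 ^ n := by
        have := card_le_univ C
        simpa using this
      exact_mod_cast h7
    have h8 := log_le_log (by linarith) h6
    rwa [log_pow] at h8
  have h9 : err p C D * log (C.card : ℝ) ≤ ε * (n * log 2) :=
    mul_le_mul hε h5 (log_nonneg hN1) (h0.trans hε)
  linarith

end Pool.Agent.H93S.GV
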