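import Mathlib
import Pool.Agent.H93S.GV.Dec

/-!
# Strong converse for mixtures of binary symmetric channels
-/

set_option autoImplicit false

namespace Pool.Agent.H93S.GV

open Real Finset

/-- the moment generating function of the information density -/
noncomputable def Mf {J : Type} [Fintype J] (lam q : J → ℝ) (s : ℝ) : ℝ :=
  ∑ j, lam j / 2 * ((2 * (1 - q j)) ^ (1 + s) + (2 * q j) ^ (1 + s))

lemma deriv_pow {u : ℝ} (hu : 0 ≤ u) :
    HasDerivAt (fun s : ℝ => u ^ (1 + s)) (u * log u) 0 := by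
  rcases eq_or_lt_of_le hu with h | h
  · rw [← h, zero_mul]
    have h1 : (fun s : ℝ => (0 : ℝ) ^ (1 + s)) =ᶠ[nhds 0] fun _ => 0 := by
      have h2 : ∀ᶠ s : ℝ in nhds 0, -1 < s := lt_mem_nhds (by norm_num)
      filter_upwards [h2] with s hs
      exact Real.zero_rpow (by linarith)
    exact (hasDerivAt_const (0 : ℝ) (0 : ℝ)).congr_of_eventuallyEq h1
  · have h1 : HasDerivAt (fun s : ℝ => 1 + s) 1 0 := (hasDerivAt_id' (0 : ℝ)).const_add 1
    have h2 := (Real.hasStrictDerivAt_const_rpow h (1 + 0)).hasDerivAt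
    have h3 := h2.comp (0 : ℝ) h1
    rw [add_zero, Real.rpow_one, mul_one] at h3
    exact h3

lemma Mf_zero {J : Type} [Fintype J] {lam : J → ℝ} (q : J → ℝ) (hl1 : ∑ j, lam j = 1) :
    Mf lam q 0 = 1 := by
  unfold Mf
  simp_rw [add_zero, Real.rpow_one]
  refine Eq.trans (sum_congr rfl fun j _ => ?_) hl1
  ring

lemma entropy_term {q : ℝ} (h0 : 0 ≤ q) (h1 : q ≤ 1) :
    2 * (1 - q) * log (2 * (1 - q)) + 2 * q * log (2 * q) = 2 * (log 2 - binEntropy q) := by
  rw [binEntropy_eq_negMulLog_add_negMulLog_one_sub, negMulLog, negMulLog]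
  have e : ∀ u : ℝ, 0 ≤ u → 2 * u * log (2 * u) = 2 * u * log 2 + 2 * u * log u := by
    intro u hu
    rcases eq_or_lt_of_le hu with h | h
    · rw [← h]; simp
    · rw [log_mul (by norm_num) h.ne']; ring
  rw [e q h0, e (1 - q) (by linarith)]
  ring

lemma deriv_Mf {J : Type} [Fintype J] {lam q : J → ℝ} (hl1 : ∑ j, lam j = 1)
    (hq : ∀ j, 0 ≤ q j ∧ q j ≤ 1) :
    HasDerivAt (Mf lam q) (log 2 - ∑ j, lam j * binEntropy (q j)) 0 := by
  have h1 : HasDerivAt (Mf lam q) (∑ j, lam j / 2 * (2 * (1 - q j) * log (2 * (1 - q j)) +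
      2 * q j * log (2 * q j))) 0 := by
    unfold Mf
    refine HasDerivAt.fun_sum fun j _ => ?_
    exact ((deriv_pow (by linarith [(hq j).2])).fun_add
      (deriv_pow (by linarith [(hq j).1]))).const_mul _
  refine h1.congr_deriv ?_
  have h2 : ∀ j, lam j / 2 * (2 * (1 - q j) * log (2 * (1 - q j)) + 2 * q j * log (2 * q j)) =
      lam j * log 2 - lam j * binEntropy (q j) := by
    intro j
    rw [entropy_term (hq j).1 (hq j).2]
    ring
  simp_rw [h2]
  rw [sum_sub_distrib, ← sum_mul, hl1, one_mul]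

/-- Chernoff's exponent is positive above capacity -/
lemma exists_s {J : Type} [Fintype J] {lam q : J → ℝ} (hl1 : ∑ j, lam j = 1)
    (hq : ∀ j, 0 ≤ q j ∧ q j ≤ 1) {r : ℝ} (hr : log 2 - ∑ j, lam j * binEntropy (q j) < r) :
    ∃ s : ℝ, 0 < s ∧ Mf lam q s * exp (-(s * r)) < 1 := by
  have h1 : HasDerivAt (fun s => Mf lam q s * exp (-(s * r)))
      ((log 2 - ∑ j, lam j * binEntropy (q j)) - r) 0 := by
    have h2 : HasDerivAt (fun s : ℝ => exp (-(s * r))) (-r) 0 := by
      have h3 : HasDerivAt (fun s : ℝ => -(s * r)) (-r) 0 := by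
        have := ((hasDerivAt_id' (0 : ℝ)).mul_const r).fun_neg
        simpa using this
      have h4 := h3.exp
      simpa using h4
    have h5 := (deriv_Mf hl1 hq).fun_mul h2
    refine h5.congr_deriv ?_
    rw [Mf_zero q hl1]
    simp
    ring
  rw [hasDerivAt_iff_tendsto_slope] at h1
  have h2 := h1.eventually (gt_mem_nhds (show (log 2 - ∑ j, lam j * binEntropy (q j)) - r < 0 by
    linarith))
  have h3 : ∀ᶠ s : ℝ in nhdsWithin 0 (Set.Ioi 0), slope (fun s => Mf lam q s * exp (-(s * r))) 0 s < 0 :=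
    h2.filter_mono (nhdsWithin_mono _ fun s hs => ne_of_gt hs)
  obtain ⟨s, hs, hs0⟩ := (h3.and self_mem_nhdsWithin).exists
  refine ⟨s, hs0, ?_⟩
  have hs0' : 0 < s := hs0
  rw [slope_def_field, sub_zero, div_neg_iff] at hs
  have h4 : Mf lam q 0 * exp (-(0 * r)) = 1 := by
    rw [Mf_zero q hl1]; simp
  rw [h4] at hs
  rcases hs with ⟨-, h5⟩ | ⟨h5, -⟩
  · linarith
  · linarith

/-- transition probabilities of the mixture -/
noncomputable def W1 {J : Type} [Fintype J] (lam q : J → ℝ) (a : Bool) (y : Bool × J) : ℝ :=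
  lam y.2 * w (q y.2) a y.1

/-- transition probabilities of `n` uses of the mixture -/
noncomputable def Wn {J : Type} [Fintype J] (lam q : J → ℝ) {n : ℕ} (x : Fin n → Bool)
    (y : Fin n → Bool × J) : ℝ := ∏ i, W1 lam q (x i) (y i)

/-- the success probability, times the number of codewords -/
theorem success {J : Type} [Fintype J] {lam q : J → ℝ} (hl : ∀ j, 0 ≤ lam j) (hl1 : ∑ j, lam j = 1)
    (hq : ∀ j, 0 ≤ q j ∧ q j ≤ 1) {n : ℕ} (C : Finset (Fin n → Bool))
    (D : (Fin n → Bool × J) → (Fin n → Bool)) {T s : ℝ} (hT : 0 < T) (hs : 0 < s) :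
    ∑ x ∈ C, ∑ y ∈ univ.filter (fun y => D y = x), Wn lam q x y ≤
      T + C.card * (T ^ (-s) * Mf lam q s ^ n) := by
  classical
  let b : (Fin n → Bool × J) → ℝ := fun y => ∏ i, lam (y i).2 / 2
  let r : (Fin n → Bool) → (Fin n → Bool × J) → ℝ := fun x y => ∏ i, 2 * w (q (y i).2) (x i) (y i).1
  have hw : ∀ (x : Fin n → Bool) (y : Fin n → Bool × J) (i : Fin n), 0 ≤ 2 * w (q (y i).2) (x i) (y i).1 := fun x y i =>
    mul_nonneg (by norm_num) (w_nonneg (hq _).1 (hq _).2 _ _)
  have hb : ∀ y, 0 ≤ b y := fun y => prod_nonneg fun i _ => by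
    have := hl (y i).2
    positivity
  have hr : ∀ x y, 0 ≤ r x y := fun x y => prod_nonneg fun i _ => hw x y i
  have hWn : ∀ x y, Wn lam q x y = b y * r x y := by
    intro x y
    show ∏ i, W1 lam q (x i) (y i) = (∏ i, lam (y i).2 / 2) * ∏ i, 2 * w (q (y i).2) (x i) (y i).1
    rw [← prod_mul_distrib]
    refine prod_congr rfl fun i _ => ?_
    unfold W1
    ring
  have hsumb : ∑ y, b y = 1 := by
    have h1 := Finset.prod_univ_sum (fun _ : Fin n => (univ : Finset (Bool × J)))
      (fun _ y => lam y.2 / 2)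
    rw [Fintype.piFinset_univ] at h1
    show ∑ y : Fin n → Bool × J, ∏ i, lam (y i).2 / 2 = 1
    rw [← h1]
    have h2 : ∑ y : Bool × J, lam y.2 / 2 = 1 := by
      rw [Fintype.sum_prod_type, Fintype.sum_bool, ← two_mul, ← sum_div, hl1]
      norm_num
    rw [h2]
    simp
  have hpw : ∀ x y, Wn lam q x y ≤ T * b y + T ^ (-s) * (b y * (r x y) ^ (1 + s)) := by
    intro x y
    rw [hWn]
    have h0 : 0 ≤ T ^ (-s) * (b y * (r x y) ^ (1 + s)) := by
      have := hb y
      have := hr x y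
      positivity
    rcases le_total (r x y) T with h | h
    · have := mul_le_mul_of_nonneg_left h (hb y)
      linarith
    · have h1 : 0 ≤ T * b y := mul_nonneg hT.le (hb y)
      have hr0 : 0 < r x y := lt_of_lt_of_le hT h
      have h2 : r x y ≤ T ^ (-s) * (r x y) ^ (1 + s) := by
        rw [Real.rpow_add hr0, Real.rpow_one, Real.rpow_neg hT.le]
        have h3 : T ^ s ≤ r x y ^ s := Real.rpow_le_rpow hT.le h hs.le
        have h4 : 0 < T ^ s := Real.rpow_pos_of_pos hT s
        have h5 : (T ^ s)⁻¹ * (r x y * r x y ^ s) = r x y * (r x y ^ s / T ^ s) := by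
          field_simp
        rw [h5]
        have h6 : 1 ≤ r x y ^ s / T ^ s := by rwa [one_le_div h4]
        nlinarith
      have h3 := mul_le_mul_of_nonneg_left h2 (hb y)
      linarith
  have hM : ∀ x, ∑ y, b y * (r x y) ^ (1 + s) = Mf lam q s ^ n := by
    intro x
    have h1 : ∀ y, b y * (r x y) ^ (1 + s) =
        ∏ i, lam (y i).2 / 2 * (2 * w (q (y i).2) (x i) (y i).1) ^ (1 + s) := by
      intro y
      show (∏ i, lam (y i).2 / 2) * (∏ i, 2 * w (q (y i).2) (x i) (y i).1) ^ (1 + s) = _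
      rw [← Real.finsetProd_rpow _ _ (fun i _ => hw x y i), ← prod_mul_distrib]
    simp_rw [h1]
    have h2 := Finset.prod_univ_sum (fun _ : Fin n => (univ : Finset (Bool × J)))
      (fun i y => lam y.2 / 2 * (2 * w (q y.2) (x i) y.1) ^ (1 + s))
    rw [Fintype.piFinset_univ] at h2
    rw [← h2]
    have h3 : ∀ i : Fin n, ∑ y : Bool × J, lam y.2 / 2 * (2 * w (q y.2) (x i) y.1) ^ (1 + s) =
        Mf lam q s := by
      intro i
      rw [Fintype.sum_prod_type, Fintype.sum_bool, ← sum_add_distrib]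
      unfold Mf
      refine sum_congr rfl fun j _ => ?_
      cases x i <;> simp [w] <;> ring
    simp_rw [h3]
    simp
  calc ∑ x ∈ C, ∑ y ∈ univ.filter (fun y => D y = x), Wn lam q x y
      ≤ ∑ x ∈ C, ∑ y ∈ univ.filter (fun y => D y = x),
          (T * b y + T ^ (-s) * (b y * (r x y) ^ (1 + s))) :=
        sum_le_sum fun x _ => sum_le_sum fun y _ => hpw x y
    _ = ∑ x ∈ C, ∑ y ∈ univ.filter (fun y => D y = x), T * b y +
          ∑ x ∈ C, ∑ y ∈ univ.filter (fun y => D y = x), T ^ (-s) * (b y * (r x y) ^ (1 + s)) := by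
        rw [← sum_add_distrib]
        exact sum_congr rfl fun x _ => sum_add_distrib
    _ ≤ T + C.card * (T ^ (-s) * Mf lam q s ^ n) := by
        refine add_le_add ?_ ?_
        · have h1 : ∑ x ∈ C, ∑ y ∈ univ.filter (fun y => D y = x), T * b y ≤
              ∑ x, ∑ y ∈ univ.filter (fun y => D y = x), T * b y :=
            sum_le_sum_of_subset_of_nonneg (subset_univ C) fun x _ _ =>
              sum_nonneg fun y _ => mul_nonneg hT.le (hb y)
          refine h1.trans (le_of_eq ?_)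
          rw [sum_fiberwise, ← mul_sum, hsumb, mul_one]
        · rw [← nsmul_eq_mul, ← sum_const]
          refine sum_le_sum fun x _ => ?_
          rw [← hM x, mul_sum]
          refine sum_le_sum_of_subset_of_nonneg (filter_subset _ _) fun y _ _ => ?_
          have := hb y
          have := hr x y
          positivity

end Pool.Agent.H93S.GV
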