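import Mathlib
import Pool.Agent.H93S.GV.Conv2
import Pool.Agent.H2x430.Final

/-!
# Error probabilities over mixtures of binary symmetric channels and over symmetric channels
-/

set_option autoImplicit false

namespace Pool.Agent.H93S.GV

open Real Finset
open Pool.Agent.Results.MP_0430e4_lc.ConstantWeightCriterion (IsCode)

section
variable {J : Type} [Fintype J] {lam q : J → ℝ} {n : ℕ}

/-- error probability over the mixture -/
noncomputable def mixErr (lam q : J → ℝ) (C : Finset (Fin n → Bool))
    (D : (Fin n → Bool × J) → (Fin n → Bool)) : ℝ :=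
  (∑ x ∈ C, ∑ y ∈ univ.filter (fun y => D y ≠ x), Wn lam q x y) / C.card

lemma sum_split (F : (Fin n → Bool × J) → ℝ) :
    ∑ y, F y = ∑ j : Fin n → J, ∑ b : Fin n → Bool, F (fun i => (b i, j i)) := by
  rw [sum_comm, ← Fintype.sum_prod_type' (f := fun (b : Fin n → Bool) (j : Fin n → J) =>
    F (fun i => (b i, j i)))]
  exact (Equiv.sum_comp (Equiv.arrowProdEquivProdArrow (Fin n) (fun _ => Bool) (fun _ => J)).symm F).symm

lemma Wn_split (x b : Fin n → Bool) (j : Fin n → J) :
    Wn lam q x (fun i => (b i, j i)) = (∏ i, lam (j i)) * Ker (fun i => q (j i)) x b := by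
  unfold Wn W1 Ker
  rw [← prod_mul_distrib]

/-- **reliability over the mixture** -/
theorem mix_reliable (hl : ∀ j, 0 ≤ lam j) (hl1 : ∑ j, lam j = 1)
    (hq : ∀ j, 0 ≤ q j ∧ q j ≤ 1) {p : ℝ} (h0 : 0 < p) (h1 : p < 1 / 2)
    (hV : ∑ j, lam j * binEntropy (q j) ≤ binEntropy p) {C : Finset (Fin n → Bool)}
    (hC : C.Nonempty) {D₀ : (Fin n → Bool) → (Fin n → Bool)} {ε : ℝ}
    (hε : err (fun _ => p) C D₀ ≤ ε) :
    ∃ D : (Fin n → Bool × J) → (Fin n → Bool),
      mixErr lam q C D ≤ ε + 2 * √ε + ε * (n * log 2) := by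
  classical
  have hdec : ∀ j : Fin n → J, ∃ D : (Fin n → Bool) → (Fin n → Bool),
      err (fun i => q (j i)) C D ≤ Hc (unif C) (fun i => q (j i)) := fun j =>
    exists_dec C fun i => hq (j i)
  choose D hD using hdec
  refine ⟨fun y => D (fun i => (y i).2) (fun i => (y i).1), ?_⟩
  have h2 : mixErr lam q C (fun y => D (fun i => (y i).2) (fun i => (y i).1)) =
      ∑ j : Fin n → J, (∏ i, lam (j i)) * err (fun i => q (j i)) C (D j) := by
    unfold mixErr err
    have h3 : ∀ x : Fin n → Bool, ∑ y ∈ univ.filter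
        (fun y : Fin n → Bool × J => D (fun i => (y i).2) (fun i => (y i).1) ≠ x), Wn lam q x y =
        ∑ j : Fin n → J, (∏ i, lam (j i)) *
          ∑ b ∈ univ.filter (fun b => D j b ≠ x), Ker (fun i => q (j i)) x b := by
      intro x
      rw [sum_filter, sum_split]
      refine sum_congr rfl fun j _ => ?_
      rw [sum_filter, mul_sum]
      refine sum_congr rfl fun b _ => ?_
      rw [Wn_split]
      split_ifs <;> simp
    simp_rw [h3]
    rw [sum_comm, sum_div]
    refine sum_congr rfl fun j _ => ?_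
    rw [← mul_sum, mul_div_assoc]
  rw [h2]
  have hprod : ∑ j : Fin n → J, ∏ i, lam (j i) = 1 := by
    have := Finset.prod_univ_sum (fun _ : Fin n => (univ : Finset J)) (fun _ j => lam j)
    simp only [hl1, prod_const_one, Fintype.piFinset_univ] at this
    exact this.symm
  have hpp : ∀ i : Fin n, 0 ≤ (fun _ : Fin n => p) i ∧ (fun _ : Fin n => p) i ≤ 1 := fun _ =>
    ⟨h0.le, by show p ≤ 1; linarith⟩
  calc ∑ j : Fin n → J, (∏ i, lam (j i)) * err (fun i => q (j i)) C (D j)
      ≤ ∑ j : Fin n → J, (∏ i, lam (j i)) * Hc (unif C) (fun i => q (j i)) :=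
        sum_le_sum fun j _ => mul_le_mul_of_nonneg_left (hD j) (prod_nonneg fun i _ => hl (j i))
    _ = ∑ x, negMulLog (unif C x) +
          ∑ j : Fin n → J, (∏ i, lam (j i)) * G (unif C) (fun i => q (j i)) := by
        simp_rw [fun j : Fin n → J => Hc_eq (unif_nonneg C) (fun i => hq (j i)), mul_add]
        rw [sum_add_distrib, ← sum_mul, hprod, one_mul]
    _ ≤ ∑ x, negMulLog (unif C x) + G (unif C) (fun _ => p) := by
        have := avg h0 h1 hl hl1 hq hV (unif_nonneg C)
        linarith
    _ = Hc (unif C) (fun _ => p) := (Hc_eq (unif_nonneg C) hpp).symm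
    _ ≤ ε + 2 * √ε + ε * (n * log 2) := fano hC hpp D₀ hε

/-- **the strong converse** -/
theorem mix_converse (hl : ∀ j, 0 ≤ lam j) (hl1 : ∑ j, lam j = 1)
    (hq : ∀ j, 0 ≤ q j ∧ q j ≤ 1) {C : Finset (Fin n → Bool)} (hC : C.Nonempty)
    (D : (Fin n → Bool × J) → (Fin n → Bool)) {T s : ℝ} (hT : 0 < T) (hs : 0 < s) :
    1 - (T / C.card + T ^ (-s) * Mf lam q s ^ n) ≤ mixErr lam q C D := by
  classical
  have hc : (0 : ℝ) < C.card := by exact_mod_cast hC.card_pos
  have h1 := success hl hl1 hq C D hT hs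
  have hsum : ∀ x : Fin n → Bool, ∑ y, Wn lam q x y = 1 := by
    intro x
    have h2 := Finset.prod_univ_sum (fun _ : Fin n => (univ : Finset (Bool × J)))
      (fun i y => W1 lam q (x i) y)
    rw [Fintype.piFinset_univ] at h2
    unfold Wn
    rw [← h2]
    have h3 : ∀ i : Fin n, ∑ y, W1 lam q (x i) y = 1 := by
      intro i
      unfold W1
      rw [Fintype.sum_prod_type, sum_comm]
      simp_rw [← mul_sum, sum_w, mul_one]
      exact hl1
    simp_rw [h3]
    simp
  have h4 : ∑ x ∈ C, ∑ y ∈ univ.filter (fun y => D y ≠ x), Wn lam q x y =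
      C.card - ∑ x ∈ C, ∑ y ∈ univ.filter (fun y => D y = x), Wn lam q x y := by
    have h5 : ∀ x, ∑ y ∈ univ.filter (fun y => D y ≠ x), Wn lam q x y =
        1 - ∑ y ∈ univ.filter (fun y => D y = x), Wn lam q x y := by
      intro x
      rw [← hsum x, ← sum_filter_add_sum_filter_not univ (fun y => D y = x)]
      ring
    simp_rw [h5]
    rw [sum_sub_distrib, sum_const, nsmul_eq_mul, mul_one]
  unfold mixErr
  rw [h4, le_div_iff₀ hc]
  have h6 : (1 - (T / C.card + T ^ (-s) * Mf lam q s ^ n)) * C.card =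
      C.card - (T + C.card * (T ^ (-s) * Mf lam q s ^ n)) := by
    field_simp
  rw [h6]
  linarith

end

section
variable {O : Type} [Fintype O] {P : Bool → O → ℝ} {f : O → O} {n : ℕ}

/-- error probability over a channel with transition probabilities `P` -/
noncomputable def chErr (P : Bool → O → ℝ) (C : Finset (Fin n → Bool))
    (D : (Fin n → O) → (Fin n → Bool)) : ℝ :=
  (∑ x ∈ C, ∑ y ∈ univ.filter (fun y => D y ≠ x), ∏ i, P (x i) (y i)) / C.card

/-- the weights of the mixture -/
noncomputable def lamO (P : Bool → O → ℝ) (y : O) : ℝ := (P false y + P true y) / 2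

/-- the crossover probabilities of the mixture -/
noncomputable def qO (P : Bool → O → ℝ) (y : O) : ℝ := P true y / (P false y + P true y)

/-- the output of the channel as a function of the output of the mixture -/
def outO (f : O → O) (b : Bool) (y : O) : O := if b then f y else y

omit [Fintype O] in
lemma outO_outO (hf : ∀ y, f (f y) = y) (b : Bool) (y : O) : outO f b (outO f b y) = y := by
  cases b <;> simp [outO, hf]

lemma W1_eq (hP : ∀ a y, 0 ≤ P a y) (hf : ∀ y, f (f y) = y)
    (hsymm : ∀ y, P true y = P false (f y)) (a b : Bool) (y : O) :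
    W1 (lamO P) (qO P) a (b, y) = P a (outO f b y) / 2 := by
  have hsymm' : ∀ y, P false y = P true (f y) := fun y => by rw [hsymm, hf]
  have h1 : lamO P y * qO P y = P true y / 2 := by
    unfold lamO qO
    rcases eq_or_ne (P false y + P true y) 0 with h | h
    · have h2 : P true y = 0 := by linarith [hP false y, hP true y]
      rw [h, h2]; simp
    · field_simp
  have h2 : lamO P y * (1 - qO P y) = P false y / 2 := by
    rw [mul_sub, h1, mul_one]
    unfold lamO
    ring
  unfold W1
  cases a <;> cases b <;> simp only [w, outO, if_true, Bool.false_eq_true, if_false,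
    Bool.true_eq_false]
  · exact h2
  · rw [h1, ← hsymm]
  · exact h1
  · rw [h2, ← hsymm']

/-- a decoder for the mixture is an average of decoders for the channel -/
lemma mix_avg (hP : ∀ a y, 0 ≤ P a y) (hf : ∀ y, f (f y) = y)
    (hsymm : ∀ y, P true y = P false (f y)) (C : Finset (Fin n → Bool))
    (D : (Fin n → Bool × O) → (Fin n → Bool)) :
    mixErr (lamO P) (qO P) C D = (1 / 2) ^ n * ∑ b : Fin n → Bool,
      chErr P C (fun y => D (fun i => (b i, outO f (b i) (y i)))) := by
  classical
  unfold mixErr chErr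
  rw [← sum_div, mul_div_assoc']
  congr 1
  beta_reduce
  have hcomm := sum_comm (s := (univ : Finset (Fin n → Bool))) (t := C)
    (f := fun (b : Fin n → Bool) (x : Fin n → Bool) => ∑ y ∈ univ.filter
      (fun y : Fin n → O => D (fun i => (b i, outO f (b i) (y i))) ≠ x), ∏ i, P (x i) (y i))
  rw [hcomm, mul_sum]
  refine sum_congr rfl fun x _ => ?_
  rw [sum_filter, sum_split, sum_comm, mul_sum]
  refine sum_congr rfl fun b _ => ?_
  rw [sum_filter, mul_sum]
  let e : (Fin n → O) ≃ (Fin n → O) :=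
    ⟨fun y i => outO f (b i) (y i), fun y i => outO f (b i) (y i),
      fun y => funext fun i => outO_outO hf _ _, fun y => funext fun i => outO_outO hf _ _⟩
  rw [← Equiv.sum_comp e]
  refine sum_congr rfl fun y _ => ?_
  have e1 : ∀ i, e y i = outO f (b i) (y i) := fun i => rfl
  simp only [e1]
  have h1 : Wn (lamO P) (qO P) x (fun i => (b i, outO f (b i) (y i))) =
      (1 / 2) ^ n * ∏ i, P (x i) (y i) := by
    unfold Wn
    simp_rw [W1_eq hP hf hsymm, outO_outO hf]
    rw [prod_div_distrib, prod_const, card_univ, Fintype.card_fin]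
    rw [div_eq_mul_inv, mul_comm, one_div, inv_pow]
  rw [h1]
  split_ifs <;> simp

lemma sum_lamO (h1 : ∀ a, ∑ y, P a y = 1) : ∑ y, lamO P y = 1 := by
  unfold lamO
  rw [← sum_div, sum_add_distrib, h1, h1]
  norm_num

omit [Fintype O] in
lemma qO_mem (hP : ∀ a y, 0 ≤ P a y) (y : O) : 0 ≤ qO P y ∧ qO P y ≤ 1 := by
  unfold qO
  refine ⟨div_nonneg (hP _ _) (add_nonneg (hP _ _) (hP _ _)), ?_⟩
  exact div_le_one_of_le₀ (by linarith [hP false y]) (add_nonneg (hP _ _) (hP _ _))

/-- a decoder for the channel from one for the mixture -/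
lemma ch_of_mix (hP : ∀ a y, 0 ≤ P a y) (hf : ∀ y, f (f y) = y)
    (hsymm : ∀ y, P true y = P false (f y)) (C : Finset (Fin n → Bool))
    (D : (Fin n → Bool × O) → (Fin n → Bool)) {ε : ℝ}
    (h : mixErr (lamO P) (qO P) C D ≤ ε) :
    ∃ D' : (Fin n → O) → (Fin n → Bool), chErr P C D' ≤ ε := by
  by_contra hcon
  push Not at hcon
  rw [mix_avg hP hf hsymm] at h
  have h1 : ∑ b : Fin n → Bool, ε < ∑ b : Fin n → Bool,
      chErr P C (fun y => D (fun i => (b i, outO f (b i) (y i)))) :=
    sum_lt_sum_of_nonempty univ_nonempty fun b _ => hcon _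
  rw [sum_const, card_univ, nsmul_eq_mul] at h1
  have h2 : ((Fintype.card (Fin n → Bool) : ℕ) : ℝ) = 2 ^ n := by
    simp
  rw [h2] at h1
  have h3 : (0 : ℝ) < (1 / 2) ^ n := by positivity
  have h4 := mul_lt_mul_of_pos_left h1 h3
  have h5 : ((1 : ℝ) / 2) ^ n * (2 ^ n * ε) = ε := by
    rw [← mul_assoc, ← mul_pow]
    norm_num
  rw [h5] at h4
  linarith

/-- a decoder for the mixture from one for the channel -/
lemma mix_of_ch (hP : ∀ a y, 0 ≤ P a y) (hf : ∀ y, f (f y) = y)
    (hsymm : ∀ y, P true y = P false (f y)) (C : Finset (Fin n → Bool))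
    (D' : (Fin n → O) → (Fin n → Bool)) :
    mixErr (lamO P) (qO P) C (fun y => D' (fun i => outO f (y i).1 (y i).2)) = chErr P C D' := by
  rw [mix_avg hP hf hsymm]
  simp only [outO_outO hf]
  rw [sum_const, card_univ, nsmul_eq_mul, ← mul_assoc]
  have h2 : ((Fintype.card (Fin n → Bool) : ℕ) : ℝ) = 2 ^ n := by
    simp
  rw [h2, ← mul_pow]
  norm_num

end

/-- the error probability of helper2 is `err` -/
lemma errorProb_eq {n : ℕ} (p : ℝ) (C : Finset (Fin n → Bool))
    (D : (Fin n → Bool) → (Fin n → Bool)) :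
    Pool.Agent.H2x430.errorProb p C D = err (fun _ => p) C D := by
  unfold Pool.Agent.H2x430.errorProb err
  congr 1
  refine sum_congr rfl fun x _ => sum_congr rfl fun y _ => ?_
  unfold Ker w
  rw [prod_ite, prod_const, prod_const, mul_comm]
  have h1 : (univ.filter fun i => ¬ y i = x i).card = hammingDist x y := by
    unfold hammingDist
    congr 1
    ext i
    simp [eq_comm]
  have h2 : (univ.filter fun i => y i = x i).card = n - hammingDist x y := by
    have h3 := card_filter_add_card_filter_not (s := (univ : Finset (Fin n))) (fun i => y i = x i)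
    rw [h1, card_univ, Fintype.card_fin] at h3
    omega
  rw [h1, h2]

end Pool.Agent.H93S.GV
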