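import Mathlib
import Pool.Agent.H93S.GV.Mix

/-!
# Symmetric channels: reliability below the comparison threshold, strong converse
-/

set_option autoImplicit false

namespace Pool.Agent.H93S.GV

open Real Finset Filter
open Pool.Agent.Results.MP_0430e4_lc.ConstantWeightCriterion (IsCode H H_eq H_cont two_rpow A exists_A
  A_pos R Rlow rateA bdd_le bdd_ge)
open Pool.Agent.H2x430 (Corrects poly_exp gv_rate choose_p small)

section
variable {O : Type} [Fintype O] {P : Bool → O → ℝ} {f : O → O}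

/-- the capacity in bits -/
noncomputable def capP (P : Bool → O → ℝ) : ℝ := 1 - ∑ y, lamO P y * H (qO P y)

/-- all codes are decodable -/
def CorrectsP (P : Bool → O → ℝ) (n d : ℕ) (ε : ℝ) : Prop :=
  ∀ C : Finset (Fin n → Bool), C.Nonempty → IsCode d C →
    ∃ D : (Fin n → O) → (Fin n → Bool), chErr P C D ≤ ε

lemma CorrectsP.mono {n d : ℕ} {ε ε' : ℝ} (h : CorrectsP P n d ε) (he : ε ≤ ε') :
    CorrectsP P n d ε' := fun C h1 h2 => by
  obtain ⟨D, hD⟩ := h C h1 h2
  exact ⟨D, hD.trans he⟩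

lemma capP_log (P : Bool → O → ℝ) :
    capP P * log 2 = log 2 - ∑ y, lamO P y * binEntropy (qO P y) := by
  unfold capP
  rw [sub_mul, one_mul, sum_mul]
  congr 1
  refine sum_congr rfl fun y _ => ?_
  rw [mul_assoc, H_eq]

/-- from the binary symmetric channel to a channel of larger capacity -/
lemma corrects_of {p c : ℝ} (hP : ∀ a y, 0 ≤ P a y) (h1 : ∀ a, ∑ y, P a y = 1)
    (hf : ∀ y, f (f y) = y) (hsymm : ∀ y, P true y = P false (f y)) (hp0 : 0 < p) (hp : p < 1 / 2)
    (hcap : 1 - H p ≤ capP P) (hc : 0 < c) :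
    ∀ᶠ n : ℕ in atTop, ∀ d, Corrects p n d ((2 : ℝ) ^ (-(c * n))) →
      CorrectsP P n d ((2 : ℝ) ^ (-(c / 4 * n))) := by
  have hlog : 0 < log 2 := log_pos (by norm_num)
  have hV : ∑ y, lamO P y * binEntropy (qO P y) ≤ binEntropy p := by
    have e1 := capP_log P
    have e2 := H_eq p
    have e3 := mul_le_mul_of_nonneg_right hcap hlog.le
    linarith [sub_mul 1 (H p) (log 2)]
  filter_upwards [poly_exp (C := 3) (ε := c / 4 * log 2) (by positivity)] with n hn d hcor C hC hcode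
  obtain ⟨D₀, hD₀⟩ := hcor C hC hcode
  rw [errorProb_eq] at hD₀
  obtain ⟨D, hD⟩ := mix_reliable (lam := lamO P) (q := qO P)
    (fun y => by unfold lamO; linarith [hP false y, hP true y]) (sum_lamO h1) (qO_mem hP) hp0 hp hV
    hC hD₀
  have hn0 : (0 : ℝ) ≤ n := Nat.cast_nonneg n
  have hl2 : log 2 ≤ 1 := by
    have := Real.log_two_lt_d9
    linarith
  set ε : ℝ := (2 : ℝ) ^ (-(c * n)) with hε
  have hεe : ε = exp (-(c / 4 * log 2 * n)) ^ 4 := by
    rw [hε, two_rpow, ← exp_nat_mul]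
    congr 1
    push_cast
    ring
  set u : ℝ := exp (-(c / 4 * log 2 * n)) with hu
  have hu0 : 0 < u := exp_pos _
  have hu1 : u ≤ 1 := by
    rw [hu, exp_le_one_iff]
    have : 0 ≤ c / 4 * log 2 * n := by positivity
    linarith
  have hsq : √ε = u ^ 2 := by
    rw [hεe, show u ^ 4 = (u ^ 2) ^ 2 by ring, sqrt_sq (by positivity)]
  have htarget : (2 : ℝ) ^ (-(c / 4 * n)) = u := by
    rw [two_rpow, hu]
    congr 1
    ring
  refine ch_of_mix hP hf hsymm C D (hD.trans ?_)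
  rw [hsq, hεe, htarget]
  have h3 : 3 * ((n : ℝ) + 1) * u ≤ 1 / 3 := hn
  have h4 : u ^ 4 ≤ u ^ 2 := pow_le_pow_of_le_one hu0.le hu1 (by norm_num)
  have h5 : u ^ 4 * (n * log 2) ≤ u ^ 2 * n := by
    have h6 : (n : ℝ) * log 2 ≤ n := by nlinarith
    exact mul_le_mul h4 h6 (by positivity) (by positivity)
  have h7 : u ^ 2 * (3 + n) ≤ u := by
    have h8 : (3 + (n : ℝ)) * u ≤ 1 := by nlinarith
    nlinarith
  nlinarith

/-- above capacity a largest code is not decodable -/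
lemma above {δ r η : ℝ} (hP : ∀ a y, 0 ≤ P a y) (h1 : ∀ a, ∑ y, P a y = 1)
    (hf : ∀ y, f (f y) = y) (hsymm : ∀ y, P true y = P false (f y)) (hr : capP P < r)
    (hη : η < 1) :
    ∀ᶠ n : ℕ in atTop, r < Real.logb 2 (A n ⌈δ * n⌉₊) / n → ¬ CorrectsP P n ⌈δ * n⌉₊ η := by
  have hlog : 0 < log 2 := log_pos (by norm_num)
  obtain ⟨r', hr1, hr2⟩ := exists_between hr
  have hcap : log 2 - ∑ y, lamO P y * binEntropy (qO P y) < r' * log 2 := by
    rw [← capP_log]
    exact mul_lt_mul_of_pos_right hr1 hlog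
  obtain ⟨s, hs, hM⟩ := exists_s (lam := lamO P) (q := qO P) (sum_lamO h1) (qO_mem hP) hcap
  have hlam : ∀ y, 0 ≤ lamO P y := fun y => by unfold lamO; linarith [hP false y, hP true y]
  have hM0 : 0 ≤ Mf (lamO P) (qO P) s := by
    unfold Mf
    refine sum_nonneg fun y _ => mul_nonneg (by linarith [hlam y]) (add_nonneg ?_ ?_)
    · exact rpow_nonneg (by linarith [(qO_mem hP y).2]) _
    · exact rpow_nonneg (by linarith [(qO_mem hP y).1]) _
  have t1 : Tendsto (fun n : ℕ => exp (-((r - r') * log 2 * n)) +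
      (Mf (lamO P) (qO P) s * exp (-(s * (r' * log 2)))) ^ n) atTop (nhds (0 + 0)) := by
    refine Tendsto.add ?_ ?_
    · refine Real.tendsto_exp_neg_atTop_nhds_zero.comp ?_
      have : 0 < (r - r') * log 2 := mul_pos (by linarith) hlog
      exact Tendsto.const_mul_atTop this tendsto_natCast_atTop_atTop
    · exact tendsto_pow_atTop_nhds_zero_of_lt_one (mul_nonneg hM0 (exp_pos _).le) hM
  rw [add_zero] at t1
  filter_upwards [t1.eventually (gt_mem_nhds (show (0 : ℝ) < 1 - η by linarith)),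
    eventually_ge_atTop 1] with n hn hn1 hlt hcor
  have hn0 : (0 : ℝ) < n := by exact_mod_cast hn1
  obtain ⟨C, hC, hcard⟩ := exists_A n ⌈δ * n⌉₊
  have hA := A_pos n ⌈δ * n⌉₊
  have hne : C.Nonempty := by
    rw [← Finset.card_pos, hcard]
    exact hA
  obtain ⟨D', hD'⟩ := hcor C hne hC
  rw [← mix_of_ch hP hf hsymm] at hD'
  have h2 := mix_converse (lam := lamO P) (q := qO P) hlam (sum_lamO h1) (qO_mem hP) hne
    (fun y => D' (fun i => outO f (y i).1 (y i).2)) (T := exp (r' * log 2 * n)) (exp_pos _) hs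
  rw [lt_div_iff₀ hn0] at hlt
  have hA0 : (0 : ℝ) < A n ⌈δ * n⌉₊ := by exact_mod_cast hA
  have h3 : (2 : ℝ) ^ (r * n) ≤ A n ⌈δ * n⌉₊ :=
    ((Real.lt_logb_iff_rpow_lt (by norm_num) hA0).1 hlt).le
  have h4 : exp (r' * log 2 * n) / C.card ≤ exp (-((r - r') * log 2 * n)) := by
    rw [hcard, div_le_iff₀ hA0]
    calc exp (r' * log 2 * n) = exp (-((r - r') * log 2 * n)) * (2 : ℝ) ^ (r * n) := by
          rw [two_rpow, ← exp_add]
          congr 1
          ring
      _ ≤ _ := mul_le_mul_of_nonneg_left h3 (exp_pos _).le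
  have h5 : exp (r' * log 2 * n) ^ (-s) * Mf (lamO P) (qO P) s ^ n =
      (Mf (lamO P) (qO P) s * exp (-(s * (r' * log 2)))) ^ n := by
    rw [mul_pow, mul_comm, ← exp_mul, ← exp_nat_mul]
    congr 2
    ring
  rw [h5] at h2
  linarith

end

end Pool.Agent.H93S.GV
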